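import Mathlib

open MeasureTheory Metric Set Topology
open scoped NNReal ENNReal

namespace BrouwerFP

section Proj

variable {E : Type*} [NormedAddCommGroup E] [InnerProductSpace ℝ E]

/-- A nearest point projection on a closed convex set: it is a `1`-Lipschitz retraction. -/
theorem exists_proj {K : Set E} (hne : K.Nonempty) (hc : IsComplete K) (hconv : Convex ℝ K) :
    ∃ P : E → E, (∀ x, P x ∈ K) ∧ (∀ x ∈ K, P x = x) ∧ LipschitzWith 1 P ∧
      (∀ x w, w ∈ K → inner ℝ (x - P x) (w - P x) ≤ 0) := by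
  choose P hP hP2 using fun x => exists_norm_eq_iInf_of_complete_convex hne hc hconv x
  have hin : ∀ x w, w ∈ K → inner ℝ (x - P x) (w - P x) ≤ 0 := fun x w hw =>
    (norm_eq_iInf_iff_real_inner_le_zero hconv (hP x)).1 (hP2 x) w hw
  refine ⟨P, hP, ?_, ?_, hin⟩
  · intro x hx
    have h1 := hin x x hx
    rw [real_inner_self_eq_norm_sq] at h1
    have h2 : ‖x - P x‖ = 0 := by
      have := norm_nonneg (x - P x)
      nlinarith
    exact (sub_eq_zero.1 (norm_eq_zero.1 h2)).symm
  · refine LipschitzWith.of_dist_le_mul fun x y => ?_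
    rw [NNReal.coe_one, one_mul, dist_eq_norm, dist_eq_norm]
    have h1 := hin x (P y) (hP y)
    have h2 := hin y (P x) (hP x)
    have h3 : ‖P x - P y‖ ^ 2 ≤ inner ℝ (x - y) (P x - P y) := by
      rw [← real_inner_self_eq_norm_sq]
      have e1 : inner ℝ (x - P x) (P y - P x) = - inner ℝ (x - P x) (P x - P y) := by
        rw [← inner_neg_right, neg_sub]
      rw [e1] at h1
      have e2 : inner ℝ (x - y) (P x - P y) = inner ℝ (x - P x) (P x - P y)
          + inner ℝ (P x - P y) (P x - P y) - inner ℝ (y - P y) (P x - P y) := by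
        rw [← inner_add_left, ← inner_sub_left]
        congr 1
        abel
      rw [e2]
      linarith
    have h4 := real_inner_le_norm (x - y) (P x - P y)
    by_contra hlt
    push Not at hlt
    have h5 : 0 < ‖P x - P y‖ := lt_of_le_of_lt (norm_nonneg _) hlt
    nlinarith [norm_nonneg (x - y)]

end Proj

section Poly

/-- For an endomorphism `A` of a finite dimensional space, `t ↦ det (1 + t A)` is a polynomial of
degree at most the dimension. -/
theorem exists_poly_det {E : Type*} [NormedAddCommGroup E] [NormedSpace ℝ E]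
    [FiniteDimensional ℝ E] (A : E →L[ℝ] E) :
    ∃ p : Polynomial ℝ, p.natDegree ≤ Module.finrank ℝ E ∧
      ∀ t : ℝ, p.eval t = (ContinuousLinearMap.id ℝ E + t • A).det := by
  classical
  let b := Module.finBasis ℝ E
  let M : Matrix (Fin (Module.finrank ℝ E)) (Fin (Module.finrank ℝ E)) ℝ :=
    LinearMap.toMatrix b b (A : E →ₗ[ℝ] E)
  refine ⟨((Polynomial.X : Polynomial ℝ) • M.map Polynomial.C
    + (1 : Matrix (Fin (Module.finrank ℝ E)) (Fin (Module.finrank ℝ E)) ℝ).map
      Polynomial.C).det, ?_, ?_⟩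
  · refine (Polynomial.natDegree_det_X_add_C_le M 1).trans ?_
    simp
  · intro t
    have h1 : (ContinuousLinearMap.id ℝ E + t • A).det
        = LinearMap.det ((ContinuousLinearMap.id ℝ E + t • A : E →L[ℝ] E) : E →ₗ[ℝ] E) := rfl
    rw [h1, ← LinearMap.det_toMatrix b]
    have h2 := RingHom.map_det (Polynomial.evalRingHom t) ((Polynomial.X : Polynomial ℝ) •
      M.map Polynomial.C
      + (1 : Matrix (Fin (Module.finrank ℝ E)) (Fin (Module.finrank ℝ E)) ℝ).map Polynomial.C)
    rw [Polynomial.coe_evalRingHom] at h2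
    rw [h2]
    congr 1
    ext i j
    simp only [RingHom.mapMatrix_apply, Matrix.map_apply, Matrix.add_apply, Matrix.smul_apply,
      smul_eq_mul, Polynomial.coe_evalRingHom, Polynomial.eval_add, Polynomial.eval_mul,
      Polynomial.eval_X, Polynomial.eval_C]
    have h3 : ((ContinuousLinearMap.id ℝ E + t • A : E →L[ℝ] E) : E →ₗ[ℝ] E)
        = LinearMap.id + t • (A : E →ₗ[ℝ] E) := rfl
    rw [h3, map_add, map_smul, LinearMap.toMatrix_id]
    simp only [Matrix.add_apply, Matrix.smul_apply, smul_eq_mul, M]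
    ring

theorem det_pos_of_small {E : Type*} [NormedAddCommGroup E] [NormedSpace ℝ E]
    [FiniteDimensional ℝ E] (A : E →L[ℝ] E) (C t : ℝ) (hA : ‖A‖ ≤ C) (ht : 0 ≤ t)
    (htC : t * C < 1) : 0 < (ContinuousLinearMap.id ℝ E + t • A).det := by
  have hne : ∀ s ∈ Icc (0:ℝ) t, (ContinuousLinearMap.id ℝ E + s • A).det ≠ 0 := by
    intro s hs h0
    have h1 : LinearMap.det ((ContinuousLinearMap.id ℝ E + s • A : E →L[ℝ] E) : E →ₗ[ℝ] E) = 0 :=
      h0
    have h2 := LinearMap.bot_lt_ker_of_det_eq_zero h1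
    obtain ⟨v, hv, hv0⟩ := (Submodule.ne_bot_iff _).1 h2.ne'
    rw [LinearMap.mem_ker] at hv
    have h3 : v + s • A v = 0 := hv
    have h4 : ‖v‖ = ‖s • A v‖ := by
      conv_lhs => rw [eq_neg_of_add_eq_zero_left h3]
      rw [norm_neg]
    have h5 : ‖s • A v‖ ≤ (t * C) * ‖v‖ := by
      rw [norm_smul, Real.norm_eq_abs, abs_of_nonneg hs.1]
      have h6 := A.le_opNorm v
      have h7 : ‖A v‖ ≤ C * ‖v‖ := h6.trans (mul_le_mul_of_nonneg_right hA (norm_nonneg _))
      have h8 : s * ‖A v‖ ≤ t * (C * ‖v‖) :=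
        mul_le_mul hs.2 h7 (norm_nonneg _) ht
      linarith
    have h9 : 0 < ‖v‖ := norm_pos_iff.2 hv0
    nlinarith
  have hcont : Continuous fun s : ℝ => (ContinuousLinearMap.id ℝ E + s • A).det :=
    ContinuousLinearMap.continuous_det.comp (by fun_prop)
  by_contra hle
  push Not at hle
  have h0 : (0:ℝ) < (ContinuousLinearMap.id ℝ E + (0:ℝ) • A).det := by
    have : (ContinuousLinearMap.id ℝ E + (0:ℝ) • A).det = 1 := by
      rw [zero_smul, add_zero]
      exact LinearMap.det_id
    rw [this]
    exact one_pos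
  obtain ⟨s, hs, hs0⟩ := intermediate_value_Icc' ht hcont.continuousOn ⟨hle, h0.le⟩
  exact hne s hs hs0

end Poly

section NoRetraction

variable {E : Type*} [NormedAddCommGroup E] [InnerProductSpace ℝ E] [FiniteDimensional ℝ E]

/-- There is no Lipschitz retraction of the unit ball to the unit sphere which is differentiable
in the open ball. -/
theorem no_retraction (G : E → E) (C : ℝ≥0) (hG : LipschitzWith C G)
    (h0 : ∀ x, x ∉ ball (0:E) 1 → G x = 0)
    (hd : ∀ x ∈ ball (0:E) 1, DifferentiableAt ℝ G x)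
    (hr : ∀ x ∈ ball (0:E) 1, ‖x + G x‖ = 1) : False := by
  let _ : MeasurableSpace E := borel E
  have _ : BorelSpace E := ⟨rfl⟩
  let μ : Measure E := volume
  set U : Set E := ball (0:E) 1 with hU
  have hUm : MeasurableSet U := measurableSet_ball
  have hUpos : 0 < μ U := measure_ball_pos μ 0 one_pos
  have hUfin : μ U < ⊤ := measure_ball_lt_top
  -- the maps `h t`
  let h : ℝ → E → E := fun t x => x + t • G x
  let A : E → E →L[ℝ] E := fun x => fderiv ℝ G x
  have hAn : ∀ x, ‖A x‖ ≤ C := fun x => norm_fderiv_le_of_lipschitz ℝ hG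
  have hinj : ∀ t : ℝ, 0 ≤ t → t * C < 1 → Function.Injective (h t) := by
    intro t ht htC x y hxy
    have h1 : x - y = t • (G y - G x) := by
      have : x + t • G x = y + t • G y := hxy
      rw [smul_sub]
      rw [sub_eq_sub_iff_add_eq_add]
      rw [this, add_comm]
    have h2 : ‖x - y‖ ≤ t * (C * ‖x - y‖) := by
      calc ‖x - y‖ = t * ‖G y - G x‖ := by
            conv_lhs => rw [h1]
            rw [norm_smul, Real.norm_eq_abs, abs_of_nonneg ht]
        _ ≤ t * (C * ‖x - y‖) := by
            refine mul_le_mul_of_nonneg_left ?_ ht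
            have := hG.dist_le_mul y x
            rw [dist_eq_norm, dist_eq_norm, norm_sub_rev y x] at this
            exact this
    by_contra hne
    have h3 : 0 < ‖x - y‖ := norm_pos_iff.2 (sub_ne_zero.2 hne)
    nlinarith
  have hsurj : ∀ t : ℝ, 0 ≤ t → t * C < 1 → Function.Surjective (h t) := by
    intro t ht htC y
    have hcw : ContractingWith (Real.toNNReal t * C) (fun x => y - t • G x) := by
      refine ⟨?_, ?_⟩
      · rw [← NNReal.coe_lt_coe, NNReal.coe_mul, Real.coe_toNNReal t ht]
        exact htC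
      · refine LipschitzWith.of_dist_le_mul fun x z => ?_
        rw [dist_eq_norm, dist_eq_norm]
        have h1 : y - t • G x - (y - t • G z) = t • (G z - G x) := by
          rw [smul_sub]; abel
        rw [h1, norm_smul, Real.norm_eq_abs, abs_of_nonneg ht, NNReal.coe_mul,
          Real.coe_toNNReal t ht, mul_assoc]
        refine mul_le_mul_of_nonneg_left ?_ ht
        have := hG.dist_le_mul z x
        rw [dist_eq_norm, dist_eq_norm, norm_sub_rev z x] at this
        exact this
    have : Nonempty E := ⟨0⟩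
    refine ⟨hcw.fixedPoint, ?_⟩
    have h2 := hcw.fixedPoint_isFixedPt
    have h3 : y - t • G hcw.fixedPoint = hcw.fixedPoint := h2
    exact (sub_eq_iff_eq_add.1 h3).symm
  have hout : ∀ t : ℝ, ∀ x, x ∉ U → h t x = x := by
    intro t x hx
    show x + t • G x = x
    rw [h0 x hx, smul_zero, add_zero]
  have himage : ∀ t : ℝ, 0 ≤ t → t * C < 1 → h t '' U = U := by
    intro t ht htC
    ext y
    constructor
    · rintro ⟨x, hx, rfl⟩
      by_contra hy
      have h1 := hout t (h t x) hy
      have h2 := hinj t ht htC h1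
      rw [h2] at hy
      exact hy hx
    · intro hy
      obtain ⟨x, hx⟩ := hsurj t ht htC y
      refine ⟨x, ?_, hx⟩
      by_contra hxU
      rw [hout t x hxU] at hx
      rw [hx] at hxU
      exact hxU hy
  have hderiv : ∀ t : ℝ, ∀ x ∈ U,
      HasFDerivWithinAt (h t) (ContinuousLinearMap.id ℝ E + t • A x) U x := by
    intro t x hx
    exact ((hasFDerivAt_id x).add ((hd x hx).hasFDerivAt.const_smul t)).hasFDerivWithinAt
  have hint : ∀ t : ℝ, 0 ≤ t → t * C < 1 →
      IntegrableOn (fun x => (ContinuousLinearMap.id ℝ E + t • A x).det) U μ ∧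
      ∫ x in U, (ContinuousLinearMap.id ℝ E + t • A x).det ∂μ = (μ U).toReal := by
    intro t ht htC
    have e1 : ∀ x, |(ContinuousLinearMap.id ℝ E + t • A x).det| • (1:ℝ)
        = (ContinuousLinearMap.id ℝ E + t • A x).det := by
      intro x
      rw [smul_eq_mul, mul_one, abs_of_pos (det_pos_of_small (A x) C t (hAn x) ht htC)]
    have e2 := (integrableOn_image_iff_integrableOn_abs_det_fderiv_smul μ hUm (hderiv t)
      (hinj t ht htC).injOn (fun _ => (1:ℝ))).1
    have e3 := integral_image_eq_integral_abs_det_fderiv_smul μ hUm (hderiv t)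
      (hinj t ht htC).injOn (fun _ => (1:ℝ))
    rw [himage t ht htC] at e2 e3
    simp only [e1] at e2 e3
    refine ⟨e2 (integrableOn_const hUfin.ne), ?_⟩
    rw [← e3]
    simp [Measure.real]
  -- interpolation
  set n : ℕ := Module.finrank ℝ E with hn
  let δ : ℝ := 1 / ((n + 2) * (C + 1))
  have hCpos : (0:ℝ) ≤ C := C.2
  have hδ : 0 < δ := by positivity
  let v : ℕ → ℝ := fun i => i * δ
  have hv0 : ∀ i, 0 ≤ v i := fun i => by positivity
  have hvC : ∀ i ∈ Finset.range (n + 1), v i * C < 1 := by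
    intro i hi
    have hi' : (i:ℝ) ≤ n := by
      exact_mod_cast Nat.lt_succ_iff.1 (Finset.mem_range.1 hi)
    show (i:ℝ) * (1 / ((n + 2) * (C + 1))) * C < 1
    rw [mul_one_div, div_mul_eq_mul_div, div_lt_one (by positivity)]
    nlinarith
  have hvinj : Set.InjOn v (Finset.range (n + 1)) := by
    intro i _ j _ hij
    have : (i:ℝ) * δ = j * δ := hij
    exact_mod_cast mul_right_cancel₀ hδ.ne' this
  let c : ℕ → ℝ := fun i => (Lagrange.basis (Finset.range (n + 1)) v i).eval 1
  have hinterp : ∀ p : Polynomial ℝ, p.natDegree ≤ n →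
      p.eval 1 = ∑ i ∈ Finset.range (n + 1), p.eval (v i) * c i := by
    intro p hp
    have hdeg : p.degree < (Finset.range (n + 1)).card := by
      rw [Finset.card_range]
      refine lt_of_le_of_lt Polynomial.degree_le_natDegree ?_
      exact_mod_cast Nat.lt_succ_iff.2 hp
    have h1 := Lagrange.eq_interpolate hvinj hdeg
    conv_lhs => rw [h1]
    rw [Lagrange.interpolate_apply, Polynomial.eval_finsetSum]
    refine Finset.sum_congr rfl fun i _ => ?_
    rw [Polynomial.eval_mul, Polynomial.eval_C]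
  have hsum1 : ∑ i ∈ Finset.range (n + 1), c i = 1 := by
    have := hinterp 1 (by simp)
    simpa using this.symm
  have hkey : ∀ x, (ContinuousLinearMap.id ℝ E + (1:ℝ) • A x).det
      = ∑ i ∈ Finset.range (n + 1), (ContinuousLinearMap.id ℝ E + v i • A x).det * c i := by
    intro x
    obtain ⟨p, hp, hpe⟩ := exists_poly_det (A x)
    rw [← hpe 1, hinterp p hp]
    refine Finset.sum_congr rfl fun i _ => ?_
    rw [hpe]
  have hI1 : ∫ x in U, (ContinuousLinearMap.id ℝ E + (1:ℝ) • A x).det ∂μ = (μ U).toReal := by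
    simp only [hkey]
    rw [integral_finsetSum]
    · have : ∀ i ∈ Finset.range (n + 1),
          ∫ x in U, (ContinuousLinearMap.id ℝ E + v i • A x).det * c i ∂μ
            = (μ U).toReal * c i := by
        intro i hi
        rw [integral_mul_const, (hint (v i) (hv0 i) (hvC i hi)).2]
      rw [Finset.sum_congr rfl this, ← Finset.mul_sum, hsum1, mul_one]
    · intro i hi
      exact ((hint (v i) (hv0 i) (hvC i hi)).1).mul_const _
  have hzero : ∀ x ∈ U, (ContinuousLinearMap.id ℝ E + (1:ℝ) • A x).det = 0 := by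
    intro x hx
    by_contra hne
    rw [one_smul] at hne
    have hsur : Function.Surjective (ContinuousLinearMap.id ℝ E + A x : E →L[ℝ] E) := by
      have h1 : LinearMap.det ((ContinuousLinearMap.id ℝ E + A x : E →L[ℝ] E) : E →ₗ[ℝ] E) ≠ 0 :=
        hne
      have h2 := LinearMap.equivOfDetNeZero _ h1
      exact (LinearMap.equivOfDetNeZero _ h1).surjective
    obtain ⟨w, hw⟩ := hsur (x + G x)
    have hD : HasFDerivAt (fun y => y + G y) (ContinuousLinearMap.id ℝ E + A x) x :=
      (hasFDerivAt_id x).add (hd x hx).hasFDerivAt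
    have hD2 := hD.norm_sq
    have hconst : (fun y => ‖y + G y‖ ^ 2) =ᶠ[𝓝 x] fun _ => (1:ℝ) := by
      filter_upwards [isOpen_ball.mem_nhds hx] with y hy
      rw [hr y hy, one_pow]
    have hD3 : HasFDerivAt (fun y => ‖y + G y‖ ^ 2) (0 : E →L[ℝ] ℝ) x :=
      (hasFDerivAt_const (1:ℝ) x).congr_of_eventuallyEq hconst
    have heq := hD2.unique hD3
    have h3 := congrArg (fun L : E →L[ℝ] ℝ => L w) heq
    simp only [_root_.smul_apply, ContinuousLinearMap.comp_apply,
      _root_.zero_apply] at h3
    rw [hw] at h3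
    simp only [innerSL_apply_apply, real_inner_self_eq_norm_sq, hr x hx] at h3
    norm_num at h3
  have hI2 : ∫ x in U, (ContinuousLinearMap.id ℝ E + (1:ℝ) • A x).det ∂μ = 0 := by
    rw [setIntegral_congr_fun hUm hzero]
    simp
  rw [hI1] at hI2
  rcases (ENNReal.toReal_eq_zero_iff _).1 hI2 with h | h
  · exact hUpos.ne' h
  · exact hUfin.ne h

end NoRetraction

end BrouwerFP
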