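import Mathlib
import Pool.Agent.Lib.Brouwer.Basic

open MeasureTheory Metric Set Topology
open scoped NNReal ENNReal ContDiff Manifold

namespace BrouwerFP

section Smooth

variable {E : Type*} [NormedAddCommGroup E] [InnerProductSpace ℝ E] [FiniteDimensional ℝ E]

/-- A continuous map is uniformly approximated by smooth maps. -/
theorem exists_smooth_approx (f : E → E) (hf : Continuous f) (ε : ℝ) (hε : 0 < ε) :
    ∃ g : E → E, ContDiff ℝ ∞ g ∧ ∀ x, ‖g x - f x‖ < ε := by
  have h1 : ∀ x : E, Convex ℝ (ball (f x) ε) := fun x => convex_ball _ _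
  have h2 : ∀ x : E, ∃ c : E, ∀ᶠ y in 𝓝 x, c ∈ ball (f y) ε := by
    intro x
    refine ⟨f x, ?_⟩
    have h3 : ∀ᶠ y in 𝓝 x, f y ∈ ball (f x) ε :=
      hf.continuousAt.eventually (ball_mem_nhds _ hε)
    filter_upwards [h3] with y hy
    rw [mem_ball, dist_comm]
    exact hy
  obtain ⟨g, hg⟩ := exists_contMDiffMap_forall_mem_convex_of_local_const (n := (⊤ : ℕ∞)) 𝓘(ℝ, E) h1 h2
  refine ⟨g, g.contMDiff.contDiff, fun x => ?_⟩
  have := hg x
  rwa [mem_ball, dist_eq_norm] at this

/-- Brouwer's theorem for a smooth map of the closed unit ball to the open unit ball. -/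
theorem brouwer_smooth (f : E → E) (hf : ContDiff ℝ ∞ f)
    (hmaps : ∀ x ∈ closedBall (0:E) 1, ‖f x‖ < 1) :
    ∃ x ∈ closedBall (0:E) 1, f x = x := by
  by_contra hcon
  push Not at hcon
  set B : Set E := closedBall (0:E) 1 with hB
  let u : E → E := fun x => x - f x
  let a : E → ℝ := fun x => inner ℝ x (u x)
  let N : E → ℝ := fun x => ‖u x‖ ^ 2
  let D : E → ℝ := fun x => a x ^ 2 + N x * (1 - ‖x‖ ^ 2)
  let lam : E → ℝ := fun x => (-(a x) + Real.sqrt (D x)) / N x
  let R : E → E := fun x => lam x • u x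
  have hNpos : ∀ x ∈ B, 0 < N x := by
    intro x hx
    have h1 : u x ≠ 0 := fun h => hcon x hx (sub_eq_zero.1 h).symm
    have := norm_pos_iff.2 h1
    positivity
  have hnorm : ∀ x ∈ B, ‖x‖ ≤ 1 := fun x hx => by simpa [hB] using hx
  have hapos : ∀ x, ‖x‖ = 1 → 0 < a x := by
    intro x hx
    have hxB : x ∈ B := by simp [hB, hx]
    have h1 : a x = 1 - inner ℝ x (f x) := by
      show inner ℝ x (x - f x) = _
      rw [inner_sub_right, real_inner_self_eq_norm_sq, hx, one_pow]
    have h2 := real_inner_le_norm x (f x)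
    rw [hx, one_mul] at h2
    have h3 := hmaps x hxB
    rw [h1]
    linarith
  have hDpos : ∀ x ∈ B, 0 < D x := by
    intro x hx
    show 0 < a x ^ 2 + N x * (1 - ‖x‖ ^ 2)
    rcases (hnorm x hx).lt_or_eq with h | h
    · have h1 : 0 < 1 - ‖x‖ ^ 2 := by
        have := norm_nonneg x
        nlinarith
      have h2 := mul_pos (hNpos x hx) h1
      have h3 := sq_nonneg (a x)
      linarith
    · have := hapos x h
      rw [h]
      have h4 : 0 < a x ^ 2 := by positivity
      linarith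
  have hsmu : ContDiff ℝ ∞ u := contDiff_id.sub hf
  have hsma : ContDiff ℝ ∞ a := contDiff_id.inner ℝ hsmu
  have hsmN : ContDiff ℝ ∞ N := hsmu.norm_sq ℝ
  have hsmD : ContDiff ℝ ∞ D :=
    (hsma.pow 2).add (hsmN.mul (contDiff_const.sub (contDiff_id.norm_sq ℝ)))
  have hRsm : ∀ x ∈ B, ContDiffAt ℝ 1 R x := by
    intro x hx
    have h1 : ContDiffAt ℝ 1 (fun y => Real.sqrt (D y)) x :=
      (hsmD.contDiffAt.of_le (by exact_mod_cast le_top)).sqrt (hDpos x hx).ne'
    have h2 : ContDiffAt ℝ 1 lam x :=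
      (((hsma.contDiffAt.of_le (by exact_mod_cast le_top)).neg).add h1).div
        (hsmN.contDiffAt.of_le (by exact_mod_cast le_top)) (hNpos x hx).ne'
    exact h2.smul (hsmu.contDiffAt.of_le (by exact_mod_cast le_top))
  have hlip : LocallyLipschitzOn B R := by
    intro x hx
    obtain ⟨K, t, ht, hK⟩ := (hRsm x hx).exists_lipschitzOnWith
    exact ⟨K, t, mem_nhdsWithin_of_mem_nhds ht, hK⟩
  obtain ⟨C, hC⟩ := hlip.exists_lipschitzOnWith_of_compact (isCompact_closedBall 0 1)
  obtain ⟨P, hPmem, hPfix, hPlip, hPin⟩ := exists_proj (K := B) ⟨0, by simp [hB]⟩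
    (isCompact_closedBall (0:E) 1).isComplete (convex_closedBall 0 1)
  let G : E → E := fun x => R (P x)
  have hGlip : LipschitzWith C G := by
    have h1 : LipschitzOnWith (C * 1) (R ∘ P) univ :=
      hC.comp (hPlip.lipschitzOnWith (s := univ)) fun x _ => hPmem x
    rw [mul_one] at h1
    exact lipschitzOnWith_univ.1 h1
  have hsph : ∀ x, ‖x‖ = 1 → R x = 0 := by
    intro x hx
    have h1 : D x = a x ^ 2 := by
      show a x ^ 2 + N x * (1 - ‖x‖ ^ 2) = _
      rw [hx]; ring
    have h2 : lam x = 0 := by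
      show (-(a x) + Real.sqrt (D x)) / N x = 0
      rw [h1, Real.sqrt_sq (hapos x hx).le, neg_add_cancel, zero_div]
    show lam x • u x = 0
    rw [h2, zero_smul]
  have hPout : ∀ x, x ∉ ball (0:E) 1 → ‖P x‖ = 1 := by
    intro x hx
    have hx1 : 1 ≤ ‖x‖ := by simpa using hx
    have hp1 : ‖P x‖ ≤ 1 := hnorm _ (hPmem x)
    have hx0 : 0 < ‖x‖ := by linarith
    have hw : (‖x‖⁻¹ • x) ∈ B := by
      rw [hB, mem_closedBall_zero_iff, norm_smul, norm_inv, norm_norm, inv_mul_cancel₀ hx0.ne']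
    have h1 := hPin x _ hw
    have h2 : inner ℝ (x - P x) (‖x‖⁻¹ • x - P x)
        = ‖x‖ - inner ℝ x (P x) - ‖x‖⁻¹ * inner ℝ x (P x) + ‖P x‖ ^ 2 := by
      rw [inner_sub_left, inner_sub_right, inner_sub_right, inner_smul_right, inner_smul_right,
        real_inner_self_eq_norm_sq, real_inner_self_eq_norm_sq, real_inner_comm (P x) x]
      field_simp
      ring
    rw [h2] at h1
    have h3 := real_inner_le_norm x (P x)
    have h4 : inner ℝ x (P x) + ‖x‖⁻¹ * inner ℝ x (P x) ≤ ‖x‖ * ‖P x‖ + ‖P x‖ := by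
      have h5 : ‖x‖⁻¹ * inner ℝ x (P x) ≤ ‖x‖⁻¹ * (‖x‖ * ‖P x‖) :=
        mul_le_mul_of_nonneg_left h3 (by positivity)
      rw [← mul_assoc, inv_mul_cancel₀ hx0.ne', one_mul] at h5
      linarith
    by_contra hne
    have h6 : ‖P x‖ < 1 := lt_of_le_of_ne hp1 hne
    nlinarith
  refine no_retraction G C hGlip ?_ ?_ ?_
  · intro x hx
    exact hsph _ (hPout x hx)
  · intro x hx
    have hxB : x ∈ B := ball_subset_closedBall hx
    have h1 : G =ᶠ[𝓝 x] R := by
      filter_upwards [isOpen_ball.mem_nhds hx] with y hy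
      show R (P y) = R y
      rw [hPfix y (ball_subset_closedBall hy)]
    exact ((hRsm x hxB).differentiableAt one_ne_zero).congr_of_eventuallyEq h1
  · intro x hx
    have hxB : x ∈ B := ball_subset_closedBall hx
    have h1 : G x = lam x • u x := by
      show R (P x) = _
      rw [hPfix x hxB]
    have hN := hNpos x hxB
    have hD := hDpos x hxB
    have hs : Real.sqrt (D x) ^ 2 = D x := Real.sq_sqrt hD.le
    have h2 : ‖x + G x‖ ^ 2 = 1 := by
      rw [h1, norm_add_sq_real, norm_smul, inner_smul_right]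
      have h3 : (‖lam x‖ * ‖u x‖) ^ 2 = lam x ^ 2 * N x := by
        rw [mul_pow, Real.norm_eq_abs, sq_abs]
      rw [h3]
      show ‖x‖ ^ 2 + 2 * (lam x * a x) + lam x ^ 2 * N x = 1
      have h4 : lam x * N x = -(a x) + Real.sqrt (D x) := div_mul_cancel₀ _ hN.ne'
      have h5 : (‖x‖ ^ 2 + 2 * (lam x * a x) + lam x ^ 2 * N x - 1) * N x = 0 := by
        have h6 : (‖x‖ ^ 2 + 2 * (lam x * a x) + lam x ^ 2 * N x - 1) * N x
            = (‖x‖ ^ 2 - 1) * N x + 2 * a x * (lam x * N x) + (lam x * N x) ^ 2 := by ring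
        rw [h6, h4]
        have h7 : D x = a x ^ 2 + N x * (1 - ‖x‖ ^ 2) := rfl
        nlinarith
      have := (mul_eq_zero.1 h5).resolve_right hN.ne'
      linarith
    have h3 : ‖x + G x‖ = 1 ∨ ‖x + G x‖ = -1 := by
      have h8 : (‖x + G x‖ - 1) * (‖x + G x‖ + 1) = 0 := by linear_combination h2
      rcases mul_eq_zero.1 h8 with h9 | h9
      · left; linarith
      · right; linarith
    rcases h3 with h | h
    · exact h
    · have := norm_nonneg (x + G x)
      linarith

/-- Brouwer's theorem for a continuous map to the closed unit ball. -/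
theorem brouwer_ball (f : E → E) (hf : Continuous f) (hmaps : ∀ x, ‖f x‖ ≤ 1) :
    ∃ x, f x = x := by
  by_contra hcon
  push Not at hcon
  obtain ⟨x0, hx0, hmin⟩ := (isCompact_closedBall (0:E) 1).exists_isMinOn ⟨0, by simp⟩
    (f := fun x => ‖f x - x‖) (by fun_prop)
  set d : ℝ := ‖f x0 - x0‖ with hd
  have hdpos : 0 < d := norm_pos_iff.2 (sub_ne_zero.2 (hcon x0))
  obtain ⟨g, hg, hgf⟩ := exists_smooth_approx f hf (d / 3) (by positivity)
  let s : ℝ := (1 + d / 2)⁻¹
  have hs0 : 0 < s := by positivity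
  have hs1 : s * (1 + d / 2) = 1 := inv_mul_cancel₀ (by positivity)
  have hgn : ∀ x, ‖g x‖ < 1 + d / 3 := by
    intro x
    have h1 : ‖g x‖ ≤ ‖g x - f x‖ + ‖f x‖ := by
      simpa using norm_add_le (g x - f x) (f x)
    have h2 := hgf x
    have h3 := hmaps x
    linarith
  obtain ⟨x, hx, hfx⟩ := brouwer_smooth (fun x => s • g x) (contDiff_const.smul hg) (by
    intro x _
    rw [norm_smul, Real.norm_eq_abs, abs_of_pos hs0]
    have h1 := hgn x
    nlinarith)
  have h1 : d ≤ ‖f x - x‖ := hmin hx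
  have h2 : ‖f x - x‖ ≤ ‖g x - f x‖ + ‖g x - s • g x‖ := by
    have h3 : f x - x = (g x - s • g x) - (g x - f x) := by
      have h4 : s • g x = x := hfx
      rw [h4]; abel
    rw [h3]
    calc _ ≤ ‖g x - s • g x‖ + ‖g x - f x‖ := norm_sub_le _ _
      _ = _ := add_comm _ _
  have h3 : ‖g x - s • g x‖ = (1 - s) * ‖g x‖ := by
    have h4 : g x - s • g x = (1 - s) • g x := by rw [sub_smul, one_smul]
    have h5 : 0 ≤ 1 - s := by nlinarith
    rw [h4, norm_smul, Real.norm_eq_abs, abs_of_nonneg h5]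
  have h4 : (1 - s) * ‖g x‖ ≤ d / 2 := by
    have h5 : 0 ≤ 1 - s := by nlinarith
    have h6 := hgn x
    have h7 : (1 - s) * ‖g x‖ ≤ (1 - s) * (1 + d / 2) :=
      mul_le_mul_of_nonneg_left (by linarith) h5
    nlinarith
  have h5 := hgf x
  linarith

/-- Brouwer's theorem for compact convex sets of a finite dimensional inner product space. -/
theorem brouwer_inner {K : Set E} (hK : IsCompact K) (hconv : Convex ℝ K) (hne : K.Nonempty)
    (f : E → E) (hf : ContinuousOn f K) (hmaps : MapsTo f K K) : ∃ x ∈ K, f x = x := by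
  obtain ⟨P, hPmem, hPfix, hPlip, -⟩ := exists_proj hne hK.isComplete hconv
  obtain ⟨r, hr⟩ := hK.isBounded.exists_norm_le
  let ρ : ℝ := max r 1
  have hρ : 0 < ρ := lt_max_of_lt_right one_pos
  have hKρ : ∀ y ∈ K, ‖y‖ ≤ ρ := fun y hy => (hr y hy).trans (le_max_left _ _)
  have hFc : Continuous fun x => ρ⁻¹ • f (P (ρ • x)) := by
    have h1 : Continuous fun x : E => P (ρ • x) := hPlip.continuous.comp (continuous_const_smul ρ)
    have h2 : Continuous fun x : E => f (P (ρ • x)) :=
      hf.comp_continuous h1 fun x => hPmem _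
    exact h2.const_smul _
  obtain ⟨x, hx⟩ := brouwer_ball (fun x => ρ⁻¹ • f (P (ρ • x))) hFc (by
    intro x
    rw [norm_smul, norm_inv, Real.norm_eq_abs, abs_of_pos hρ]
    have h1 := hKρ _ (hmaps (hPmem (ρ • x)))
    rw [inv_mul_le_iff₀ hρ, mul_one]
    exact h1)
  have h1 : f (P (ρ • x)) = ρ • x := by
    have h2 : ρ • (ρ⁻¹ • f (P (ρ • x))) = ρ • x := congrArg (fun z => ρ • z) hx
    rwa [smul_inv_smul₀ hρ.ne'] at h2
  have h2 : ρ • x ∈ K := by
    rw [← h1]
    exact hmaps (hPmem _)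
  refine ⟨ρ • x, h2, ?_⟩
  rw [hPfix _ h2] at h1
  exact h1

end Smooth

section General

variable {V : Type*} [AddCommGroup V] [TopologicalSpace V] [IsTopologicalAddGroup V] [T2Space V]
  [Module ℝ V] [ContinuousSMul ℝ V] [FiniteDimensional ℝ V]

/-- **Brouwer's fixed point theorem**: a continuous self map of a nonempty compact convex subset of
a finite dimensional (Hausdorff topological) real vector space has a fixed point. -/
theorem brouwer {K : Set V} (hK : IsCompact K) (hconv : Convex ℝ K) (hne : K.Nonempty)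
    (f : V → V) (hf : ContinuousOn f K) (hmaps : MapsTo f K K) : ∃ x ∈ K, f x = x := by
  let e : V ≃L[ℝ] EuclideanSpace ℝ (Fin (Module.finrank ℝ V)) := toEuclidean
  have h1 : IsCompact (e '' K) := hK.image e.continuous
  have h2 : Convex ℝ (e '' K) := hconv.linear_image (e.toLinearEquiv.toLinearMap)
  have hmem : ∀ y ∈ e '' K, e.symm y ∈ K := by
    rintro y ⟨x, hx, rfl⟩
    rwa [e.symm_apply_apply]
  obtain ⟨y, hy, hfy⟩ := brouwer_inner h1 h2 (hne.image e) (fun y => e (f (e.symm y)))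
    (e.continuous.comp_continuousOn (hf.comp e.symm.continuous.continuousOn hmem))
    (fun y hy => ⟨_, hmaps (hmem y hy), rfl⟩)
  refine ⟨e.symm y, hmem y hy, ?_⟩
  have h3 : e (f (e.symm y)) = y := hfy
  exact e.injective (by rw [h3, e.apply_symm_apply])

/-- **Brouwer's fixed point theorem**, for a continuous map of the subtype. -/
theorem brouwer_subtype {K : Set V} (hK : IsCompact K) (hconv : Convex ℝ K) (hne : K.Nonempty)
    (f : K → K) (hf : Continuous f) : ∃ x : K, f x = x := by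
  classical
  obtain ⟨k0, hk0⟩ := hne
  let g : V → V := fun x => if h : x ∈ K then (f ⟨x, h⟩ : V) else x
  have hg : ∀ x : K, g x = f x := fun x => by
    simp only [g, x.2, dite_true]
  have hgc : ContinuousOn g K := by
    rw [continuousOn_iff_continuous_domRestrict]
    have : K.domRestrict g = fun x : K => (f x : V) := by
      ext x
      exact hg x
    rw [this]
    exact continuous_subtype_val.comp hf
  obtain ⟨x, hx, hfx⟩ := brouwer hK hconv ⟨k0, hk0⟩ g hgc
    (fun x hx => by rw [hg ⟨x, hx⟩]; exact (f ⟨x, hx⟩).2)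
  refine ⟨⟨x, hx⟩, Subtype.ext ?_⟩
  rw [← hg ⟨x, hx⟩]
  exact hfx

end General

end BrouwerFP
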