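import Pool.Agent.Lib.Brouwer.NoRet

/-!
# The fixed point theorem of Brouwer

`Brouwer.exists_fixed`: a continuous self map of a nonempty compact convex subset of a finite
dimensional real normed space has a fixed point.
-/

namespace Brouwer

open Metric Set Filter

section inner

variable {E : Type*} [NormedAddCommGroup E] [InnerProductSpace ℝ E] [FiniteDimensional ℝ E]

private lemma br_smooth {G : E → E} (hG : ContDiff ℝ 1 G) (hm : ∀ x, ‖x‖ ≤ 1 → ‖G x‖ ≤ 1) :
    ∃ x, ‖x‖ ≤ 1 ∧ G x = x := by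
  by_contra hcon
  have hne : ∀ x, ‖x‖ ≤ 1 → x - G x ≠ 0 := fun x hx h => hcon ⟨x, hx, (sub_eq_zero.1 h).symm⟩
  set v : E → E := fun x => x - G x with hv
  set D : E → ℝ := fun x => (inner ℝ x (v x)) ^ 2 + ‖v x‖ ^ 2 * (1 - ‖x‖ ^ 2) with hD
  have hvc : ContDiff ℝ 1 v := contDiff_id.sub hG
  have hic : ContDiff ℝ 1 fun x => (inner ℝ x (v x) : ℝ) := contDiff_id.inner ℝ hvc
  have hnc : ContDiff ℝ 1 fun x => ‖v x‖ ^ 2 := hvc.norm_sq ℝ
  have hDc : ContDiff ℝ 1 D :=
    (hic.pow 2).add (hnc.mul (contDiff_const.sub (contDiff_id.norm_sq ℝ)))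
  have hsphere : ∀ x : E, ‖x‖ = 1 → 0 < (inner ℝ x (v x) : ℝ) := by
    intro x hx
    have h1 : 0 < ‖x - G x‖ := norm_pos_iff.2 (hne x hx.le)
    have h2 : ‖x - G x‖ ^ 2 = ‖x‖ ^ 2 - 2 * inner ℝ x (G x) + ‖G x‖ ^ 2 := norm_sub_sq_real _ _
    have h3 : ‖G x‖ ≤ 1 := hm x hx.le
    have h4 : (inner ℝ x (v x) : ℝ) = 1 - inner ℝ x (G x) := by
      rw [hv]
      show inner ℝ x (x - G x) = _
      rw [inner_sub_right, real_inner_self_eq_norm_sq, hx, one_pow]
    rw [h4]
    rw [hx] at h2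
    nlinarith [norm_nonneg (G x)]
  have hDpos : ∀ x : E, ‖x‖ ≤ 1 → 0 < D x := by
    intro x hx
    have h1 : 0 < ‖v x‖ := norm_pos_iff.2 (hne x hx)
    rcases hx.lt_or_eq with h | h
    · have h2 : 0 < 1 - ‖x‖ ^ 2 := by nlinarith [norm_nonneg x]
      have h3 : 0 < ‖v x‖ ^ 2 * (1 - ‖x‖ ^ 2) := by positivity
      show 0 < (inner ℝ x (v x)) ^ 2 + ‖v x‖ ^ 2 * (1 - ‖x‖ ^ 2)
      have h4 := sq_nonneg (inner ℝ x (v x) : ℝ)
      linarith
    · show 0 < (inner ℝ x (v x)) ^ 2 + ‖v x‖ ^ 2 * (1 - ‖x‖ ^ 2)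
      rw [h]
      have h2 := hsphere x h
      have h3 : 0 < (inner ℝ x (v x) : ℝ) ^ 2 := by positivity
      linarith
  have hUo : IsOpen {x : E | v x ≠ 0 ∧ 0 < D x} := by
    have h1 : IsOpen {x : E | v x ≠ 0} := isOpen_ne_fun hvc.continuous continuous_const
    have h2 : IsOpen {x : E | 0 < D x} := isOpen_lt continuous_const hDc.continuous
    exact h1.inter h2
  have hBU : closedBall (0 : E) 1 ⊆ {x : E | v x ≠ 0 ∧ 0 < D x} := fun x hx =>
    ⟨hne x (mem_closedBall_zero_iff.1 hx), hDpos x (mem_closedBall_zero_iff.1 hx)⟩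
  refine no_retraction hUo hBU
    (g := fun x => ((-(inner ℝ x (v x)) + Real.sqrt (D x)) / ‖v x‖ ^ 2) • v x) ?_ ?_ ?_
  · intro x hx
    have h1 : ContDiffAt ℝ 1 (fun x => Real.sqrt (D x)) x := hDc.contDiffAt.sqrt hx.2.ne'
    have h2 : ‖v x‖ ^ 2 ≠ 0 := pow_ne_zero 2 (norm_ne_zero_iff.2 hx.1)
    exact (((hic.contDiffAt.neg.add h1).div hnc.contDiffAt h2).smul
      hvc.contDiffAt).contDiffWithinAt
  · intro x hx
    have h1 : D x = (inner ℝ x (v x)) ^ 2 := by
      show (inner ℝ x (v x)) ^ 2 + ‖v x‖ ^ 2 * (1 - ‖x‖ ^ 2) = _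
      rw [hx]
      ring
    show ((-(inner ℝ x (v x)) + Real.sqrt (D x)) / ‖v x‖ ^ 2) • v x = 0
    rw [h1, Real.sqrt_sq (hsphere x hx).le, neg_add_cancel, zero_div, zero_smul]
  · intro x hx
    have h1 : 0 < ‖v x‖ := norm_pos_iff.2 (hne x hx)
    have h2 : Real.sqrt (D x) ^ 2 = (inner ℝ x (v x)) ^ 2 + ‖v x‖ ^ 2 * (1 - ‖x‖ ^ 2) :=
      Real.sq_sqrt (hDpos x hx).le
    set c : ℝ := inner ℝ x (v x) with hc
    set s : ℝ := Real.sqrt (D x) with hs
    have h3 : ‖x + ((-c + s) / ‖v x‖ ^ 2) • v x‖ ^ 2 = 1 := by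
      rw [norm_add_sq_real, inner_smul_right, norm_smul, Real.norm_eq_abs, mul_pow, sq_abs, ← hc]
      field_simp
      nlinarith
    have h4 : 0 ≤ ‖x + ((-c + s) / ‖v x‖ ^ 2) • v x‖ := norm_nonneg _
    nlinarith [sq_nonneg (‖x + ((-c + s) / ‖v x‖ ^ 2) • v x‖ - 1)]

/-- Brouwer for the unit ball. -/
theorem exists_fixed_ball {F : E → E} (hF : ContinuousOn F (closedBall 0 1))
    (hm : MapsTo F (closedBall 0 1) (closedBall 0 1)) : ∃ x ∈ closedBall (0 : E) 1, F x = x := by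
  by_contra hcon
  have hK : IsCompact (closedBall (0 : E) 1) := isCompact_closedBall 0 1
  obtain ⟨x0, hx0, hmin⟩ := hK.exists_isMinOn ⟨0, mem_closedBall_self zero_le_one⟩
    (hF.sub continuousOn_id).norm
  have hδ : 0 < ‖F x0 - x0‖ :=
    norm_pos_iff.2 (sub_ne_zero.2 fun h => hcon ⟨x0, hx0, h⟩)
  have hmin' : ∀ x : E, ‖x‖ ≤ 1 → ‖F x0 - x0‖ ≤ ‖F x - x‖ := fun x hx =>
    hmin (mem_closedBall_zero_iff.2 hx)
  set ε : ℝ := ‖F x0 - x0‖ / 2 with hε
  have hε0 : 0 < ε := by positivity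
  -- the radial projection
  let P : E → E := fun x => (max 1 ‖x‖)⁻¹ • x
  have hPc : Continuous P := by
    refine Continuous.smul (Continuous.inv₀ (continuous_const.max continuous_norm) fun x => ?_)
      continuous_id
    exact (lt_of_lt_of_le one_pos (le_max_left 1 ‖x‖)).ne'
  have hPm : ∀ x, P x ∈ closedBall (0 : E) 1 := by
    intro x
    rw [mem_closedBall_zero_iff]
    show ‖(max 1 ‖x‖)⁻¹ • x‖ ≤ 1
    have h1 : 0 < max 1 ‖x‖ := lt_of_lt_of_le one_pos (le_max_left 1 ‖x‖)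
    rw [norm_smul, Real.norm_eq_abs, abs_of_pos (inv_pos.2 h1), inv_mul_le_iff₀ h1, mul_one]
    exact le_max_right _ _
  have hPid : ∀ x : E, ‖x‖ ≤ 1 → P x = x := by
    intro x hx
    show (max 1 ‖x‖)⁻¹ • x = x
    rw [max_eq_left hx, inv_one, one_smul]
  have hFP : Continuous fun x => F (P x) := hF.comp_continuous hPc hPm
  obtain ⟨g, hg⟩ := exists_contMDiffMap_forall_mem_convex_of_local_const (n := 1)
    (modelWithCornersSelf ℝ E) (t := fun x => ball (F (P x)) ε) (fun x => convex_ball _ _)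
    (fun x => ⟨F (P x), by
      have h1 : ContinuousAt (fun y => F (P y)) x := hFP.continuousAt
      filter_upwards [h1.eventually (ball_mem_nhds _ hε0)] with y hy
      rw [mem_ball, dist_comm]
      exact mem_ball.1 hy⟩)
  have hgc : ContDiff ℝ 1 (fun x => g x) := by
    have h1 := g.contMDiff
    exact contMDiff_iff_contDiff.1 h1
  have hg' : ∀ x : E, ‖x‖ ≤ 1 → ‖g x - F x‖ < ε := by
    intro x hx
    have h1 := hg x
    rw [hPid x hx, mem_ball, dist_eq_norm] at h1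
    exact h1
  obtain ⟨x, hx, hfix⟩ := br_smooth (G := fun x => (1 + ε)⁻¹ • g x) (contDiff_const.smul hgc)
    (fun x hx => by
      have h1 := hg' x hx
      have h2 : ‖F x‖ ≤ 1 := mem_closedBall_zero_iff.1 (hm (mem_closedBall_zero_iff.2 hx))
      have h3 : ‖g x‖ ≤ 1 + ε := by
        calc ‖g x‖ = ‖F x + (g x - F x)‖ := by rw [add_sub_cancel]
          _ ≤ ‖F x‖ + ‖g x - F x‖ := norm_add_le _ _
          _ ≤ 1 + ε := add_le_add h2 h1.le
      rw [norm_smul, Real.norm_eq_abs, abs_of_pos (by positivity), inv_mul_le_iff₀ (by positivity),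
        mul_one]
      exact h3)
  have h1 : g x = (1 + ε) • x := by
    have h2 : (1 + ε) • ((1 + ε)⁻¹ • g x) = (1 + ε) • x := congrArg _ hfix
    rwa [smul_smul, mul_inv_cancel₀ (by positivity), one_smul] at h2
  have h2 : ‖F x - x‖ < ε + ε := by
    calc ‖F x - x‖ = ‖-(g x - F x) + (g x - x)‖ := by
          congr 1
          abel
      _ ≤ ‖-(g x - F x)‖ + ‖g x - x‖ := norm_add_le _ _
      _ = ‖g x - F x‖ + ε * ‖x‖ := by
        rw [norm_neg, h1]
        congr 1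
        rw [add_smul, one_smul, add_sub_cancel_left, norm_smul, Real.norm_eq_abs, abs_of_pos hε0]
      _ < ε + ε := by
        refine add_lt_add_of_lt_of_le (hg' x hx) ?_
        nlinarith
  have h3 := hmin' x hx
  rw [hε] at h2
  linarith

private lemma br_proj {K : Set E} (hK : IsCompact K) (hc : Convex ℝ K) (hne : K.Nonempty) :
    ∃ P : E → E, Continuous P ∧ (∀ x, P x ∈ K) ∧ ∀ x ∈ K, P x = x := by
  have hex := exists_norm_eq_iInf_of_complete_convex hne hK.isComplete hc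
  choose P hPK hP using hex
  have hvar : ∀ u, ∀ w ∈ K, (inner ℝ (u - P u) (w - P u) : ℝ) ≤ 0 := fun u =>
    (norm_eq_iInf_iff_real_inner_le_zero hc (hPK u)).1 (hP u)
  have hlip : ∀ u w, ‖P u - P w‖ ≤ ‖u - w‖ := by
    intro u w
    have h1 := hvar u (P w) (hPK w)
    have h2 := hvar w (P u) (hPK u)
    have h3 : ‖P u - P w‖ ^ 2 ≤ inner ℝ (u - w) (P u - P w) := by
      have h4 : (inner ℝ (u - w) (P u - P w) : ℝ) = ‖P u - P w‖ ^ 2
          - inner ℝ (u - P u) (P w - P u) - inner ℝ (w - P w) (P u - P w) := by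
        have h5 : u - w = (P u - P w) + (u - P u) - (w - P w) := by abel
        rw [h5, inner_sub_left, inner_add_left, real_inner_self_eq_norm_sq]
        have h6 : (inner ℝ (u - P u) (P w - P u) : ℝ) = - inner ℝ (u - P u) (P u - P w) := by
          rw [← inner_neg_right, neg_sub]
        rw [h6]
        ring
      rw [h4]
      linarith
    have h7 := real_inner_le_norm (u - w) (P u - P w)
    by_contra hcon
    rw [not_le] at hcon
    have h8 : 0 < ‖P u - P w‖ := lt_of_le_of_lt (norm_nonneg _) hcon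
    nlinarith
  refine ⟨P, ?_, hPK, fun x hx => ?_⟩
  · have h1 : LipschitzWith 1 P := LipschitzWith.of_dist_le_mul fun u w => by
      rw [dist_eq_norm, dist_eq_norm, NNReal.coe_one, one_mul]
      exact hlip u w
    exact h1.continuous
  · have h1 := hvar x x hx
    rw [real_inner_self_eq_norm_sq] at h1
    have h2 : ‖x - P x‖ = 0 := by
      have h3 := sq_nonneg ‖x - P x‖
      have h4 : ‖x - P x‖ ^ 2 = 0 := le_antisymm h1 h3
      exact pow_eq_zero_iff (two_ne_zero) |>.1 h4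
    exact (sub_eq_zero.1 (norm_eq_zero.1 h2)).symm

private lemma br_inner {K : Set E} (hK : IsCompact K) (hc : Convex ℝ K) (hne : K.Nonempty)
    {F : E → E} (hF : ContinuousOn F K) (hm : MapsTo F K K) : ∃ x ∈ K, F x = x := by
  obtain ⟨P, hPc, hPK, hPid⟩ := br_proj hK hc hne
  obtain ⟨R, hR⟩ := hK.isBounded.exists_norm_le
  set R' : ℝ := max R 1 with hR'
  have hR0 : 0 < R' := lt_of_lt_of_le one_pos (le_max_right _ _)
  have hRK : ∀ x ∈ K, ‖x‖ ≤ R' := fun x hx => (hR x hx).trans (le_max_left _ _)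
  have hcont : Continuous fun x => R'⁻¹ • F (P (R' • x)) :=
    (hF.comp_continuous (hPc.comp (continuous_const_smul R')) fun x => hPK _).const_smul _
  obtain ⟨x, _, hx⟩ := exists_fixed_ball (E := E) hcont.continuousOn (fun x _ => by
    rw [mem_closedBall_zero_iff, norm_smul, Real.norm_eq_abs, abs_of_pos (inv_pos.2 hR0),
      inv_mul_le_iff₀ hR0, mul_one]
    exact hRK _ (hm (hPK _)))
  have h1 : F (P (R' • x)) = R' • x := by
    have h2 : R' • (R'⁻¹ • F (P (R' • x))) = R' • x := congrArg _ hx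
    rwa [smul_smul, mul_inv_cancel₀ hR0.ne', one_smul] at h2
  have h3 : R' • x ∈ K := by
    rw [← h1]
    exact hm (hPK _)
  refine ⟨R' • x, h3, ?_⟩
  rw [hPid _ h3] at h1
  exact h1

end inner

/-- The fixed point theorem of Brouwer. -/
theorem exists_fixed {V : Type*} [NormedAddCommGroup V] [NormedSpace ℝ V] [FiniteDimensional ℝ V]
    {K : Set V} (hK : IsCompact K) (hc : Convex ℝ K) (hne : K.Nonempty) {F : V → V}
    (hF : ContinuousOn F K) (hm : MapsTo F K K) : ∃ x ∈ K, F x = x := by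
  let e : V ≃L[ℝ] EuclideanSpace ℝ (Fin (Module.finrank ℝ V)) := toEuclidean
  have hK' : IsCompact (e '' K) := hK.image e.continuous
  have hc' : Convex ℝ (e '' K) := hc.is_linear_image e.toLinearEquiv.isLinear
  have hF' : ContinuousOn (fun y => e (F (e.symm y))) (e '' K) := by
    refine e.continuous.comp_continuousOn (hF.comp e.symm.continuous.continuousOn ?_)
    rintro _ ⟨x, hx, rfl⟩
    rw [e.symm_apply_apply]
    exact hx
  obtain ⟨y, hy, hfix⟩ := br_inner hK' hc' (hne.image e) hF' (by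
    rintro _ ⟨x, hx, rfl⟩
    show e (F (e.symm (e x))) ∈ e '' K
    rw [e.symm_apply_apply]
    exact ⟨_, hm hx, rfl⟩)
  obtain ⟨x, hx, rfl⟩ := hy
  refine ⟨x, hx, e.injective ?_⟩
  have h1 : e (F (e.symm (e x))) = e x := hfix
  rwa [e.symm_apply_apply] at h1

end Brouwer
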