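import Mathlib

/-!
# No continuously differentiable retraction of the ball onto the sphere

The proof of Milnor and Rogers: `t ↦ ∫ det (1 + t Dg)` is a polynomial which is constant for small
`t`.
-/

namespace Brouwer

open MeasureTheory Metric Set Polynomial

variable {E : Type*} [NormedAddCommGroup E] [InnerProductSpace ℝ E] [FiniteDimensional ℝ E]

private lemma nr_poly (A : E →L[ℝ] E) : ∃ P : ℝ[X], P.natDegree ≤ Module.finrank ℝ E ∧
    ∀ t : ℝ, (ContinuousLinearMap.id ℝ E + t • A).det = P.eval t := by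
  classical
  let b := Module.finBasis ℝ E
  let M := LinearMap.toMatrix b b (A : E →ₗ[ℝ] E)
  refine ⟨Matrix.det ((X : ℝ[X]) • M.map C + (1 : Matrix _ _ ℝ).map C), ?_, fun t => ?_⟩
  · have h := natDegree_det_X_add_C_le M (1 : Matrix _ _ ℝ)
    rwa [Fintype.card_fin] at h
  · have h1 : (ContinuousLinearMap.id ℝ E + t • A).det =
        LinearMap.det (LinearMap.id + t • (A : E →ₗ[ℝ] E)) := rfl
    rw [h1, ← LinearMap.det_toMatrix b]
    have h2 : LinearMap.toMatrix b b (LinearMap.id + t • (A : E →ₗ[ℝ] E)) = 1 + t • M := by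
      rw [map_add, map_smul, LinearMap.toMatrix_id]
    rw [h2, ← Polynomial.coe_evalRingHom, RingHom.map_det]
    congr 1
    ext i j
    simp only [RingHom.mapMatrix_apply, Matrix.map_apply, Matrix.add_apply, Matrix.smul_apply,
      smul_eq_mul, coe_evalRingHom, eval_add, eval_mul, eval_X, eval_C]
    ring

private lemma nr_pos {A : E →L[ℝ] E} (hA : ‖A‖ < 1) :
    0 < (ContinuousLinearMap.id ℝ E + A).det := by
  by_contra hcon
  rw [not_lt] at hcon
  have hcont : Continuous fun s : ℝ => (ContinuousLinearMap.id ℝ E + s • A).det :=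
    ContinuousLinearMap.continuous_det.comp
      (continuous_const.add (continuous_id.smul continuous_const))
  have h0 : (ContinuousLinearMap.id ℝ E + (0 : ℝ) • A).det = 1 := by
    rw [zero_smul, add_zero]
    exact LinearMap.det_id
  have h1 : (ContinuousLinearMap.id ℝ E + (1 : ℝ) • A).det ≤ 0 := by
    rw [one_smul]; exact hcon
  have h2 : (0 : ℝ) ∈ Icc ((ContinuousLinearMap.id ℝ E + (1 : ℝ) • A).det)
      ((ContinuousLinearMap.id ℝ E + (0 : ℝ) • A).det) := by
    rw [h0]
    exact ⟨h1, zero_le_one⟩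
  obtain ⟨s, hs, hs0⟩ := intermediate_value_Icc' (zero_le_one' ℝ) hcont.continuousOn h2
  have hs0' : LinearMap.det ((ContinuousLinearMap.id ℝ E + s • A : E →L[ℝ] E) : E →ₗ[ℝ] E) = 0 :=
    hs0
  have hker := LinearMap.bot_lt_ker_of_det_eq_zero hs0'
  obtain ⟨x, hx, hx0⟩ := Submodule.exists_mem_ne_zero_of_ne_bot hker.ne'
  have h3 : x + s • A x = 0 := hx
  have h4 : x = -(s • A x) := eq_neg_of_add_eq_zero_left h3
  have h5 : ‖x‖ ≤ ‖A‖ * ‖x‖ := by
    calc ‖x‖ = ‖s • A x‖ := by
          conv_lhs => rw [h4]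
          rw [norm_neg]
      _ = |s| * ‖A x‖ := by rw [norm_smul, Real.norm_eq_abs]
      _ ≤ 1 * (‖A‖ * ‖x‖) := by
        refine mul_le_mul ?_ (A.le_opNorm x) (norm_nonneg _) zero_le_one
        rw [abs_of_nonneg hs.1]; exact hs.2
      _ = ‖A‖ * ‖x‖ := one_mul _
  have h6 : 0 < ‖x‖ := norm_pos_iff.2 hx0
  nlinarith

/-- There is no `C^1` retraction. -/
theorem no_retraction {U : Set E} (hU : IsOpen U) (hB : closedBall (0 : E) 1 ⊆ U) {g : E → E}
    (hg : ContDiffOn ℝ 1 g U) (h0 : ∀ x, ‖x‖ = 1 → g x = 0)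
    (h1 : ∀ x, ‖x‖ ≤ 1 → ‖x + g x‖ = 1) : False := by
  classical
  borelize E
  set μ : Measure E := Measure.addHaar with hμ
  have hmem : ∀ x : E, ‖x‖ ≤ 1 → x ∈ U := fun x hx => hB (by rwa [mem_closedBall_zero_iff])
  have hK : IsCompact (closedBall (0 : E) 1) := isCompact_closedBall 0 1
  have hstrict : ∀ x : E, ‖x‖ ≤ 1 → HasStrictFDerivAt g (fderiv ℝ g x) x := by
    intro x hx
    exact (hg.contDiffAt (hU.mem_nhds (hmem x hx))).hasStrictFDerivAt one_ne_zero
  have hcont : ContinuousOn (fderiv ℝ g) (closedBall (0 : E) 1) :=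
    (hg.continuousOn_fderiv_of_isOpen hU le_rfl).mono hB
  obtain ⟨L, hL⟩ := hK.exists_bound_of_continuousOn hcont
  have hL0 : 0 ≤ L := (norm_nonneg _).trans (hL 0 (mem_closedBall_self zero_le_one))
  have hLip : ∀ x y : E, ‖x‖ ≤ 1 → ‖y‖ ≤ 1 → ‖g y - g x‖ ≤ L * ‖y - x‖ := by
    intro x y hx hy
    refine (convex_closedBall (0 : E) 1).norm_image_sub_le_of_norm_hasFDerivWithin_le
      (f' := fderiv ℝ g) (fun z hz => ?_) hL (by rwa [mem_closedBall_zero_iff])
      (by rwa [mem_closedBall_zero_iff])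
    exact (hstrict z (mem_closedBall_zero_iff.1 hz)).hasFDerivAt.hasFDerivWithinAt
  -- the map `x + t g x`
  have hF : ∀ t : ℝ, 0 ≤ t → t < 1 → t * L < 1 →
      ∫ x in ball (0 : E) 1, (ContinuousLinearMap.id ℝ E + t • fderiv ℝ g x).det ∂μ =
        μ.real (ball (0 : E) 1) := by
    intro t ht0 ht1 htL
    have hder : ∀ x : E, ‖x‖ ≤ 1 → HasStrictFDerivAt (fun x => x + t • g x)
        (ContinuousLinearMap.id ℝ E + t • fderiv ℝ g x) x := fun x hx =>
      (hasStrictFDerivAt_id x).add ((hstrict x hx).const_smul t)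
    have hsmall : ∀ x : E, ‖x‖ ≤ 1 → ‖t • fderiv ℝ g x‖ < 1 := by
      intro x hx
      rw [norm_smul, Real.norm_eq_abs, abs_of_nonneg ht0]
      exact (mul_le_mul_of_nonneg_left (hL x (by rwa [mem_closedBall_zero_iff])) ht0).trans_lt htL
    have hinj : InjOn (fun x => x + t • g x) (closedBall (0 : E) 1) := by
      intro x hx y hy hxy
      rw [mem_closedBall_zero_iff] at hx hy
      have h2 : y - x = -(t • (g y - g x)) := by
        have h3 : x + t • g x = y + t • g y := hxy
        rw [smul_sub]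
        linear_combination (norm := module) (-1 : ℝ) • h3
      have h3 : ‖y - x‖ ≤ t * (L * ‖y - x‖) := by
        calc ‖y - x‖ = ‖t • (g y - g x)‖ := by rw [h2, norm_neg]
          _ = t * ‖g y - g x‖ := by rw [norm_smul, Real.norm_eq_abs, abs_of_nonneg ht0]
          _ ≤ t * (L * ‖y - x‖) := mul_le_mul_of_nonneg_left (hLip x y hx hy) ht0
      by_contra hne
      have h4 : 0 < ‖y - x‖ := norm_pos_iff.2 (sub_ne_zero.2 (Ne.symm hne))
      nlinarith
    have hsub : (fun x => x + t • g x) '' ball (0 : E) 1 ⊆ ball (0 : E) 1 := by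
      rintro _ ⟨x, hx, rfl⟩
      rw [mem_ball_zero_iff] at hx ⊢
      have h2 : x + t • g x = (1 - t) • x + t • (x + g x) := by module
      show ‖x + t • g x‖ < 1
      rw [h2]
      calc ‖(1 - t) • x + t • (x + g x)‖ ≤ ‖(1 - t) • x‖ + ‖t • (x + g x)‖ := norm_add_le _ _
        _ = (1 - t) * ‖x‖ + t * 1 := by
          rw [norm_smul, norm_smul, h1 x hx.le, Real.norm_eq_abs, Real.norm_eq_abs,
            abs_of_nonneg ht0, abs_of_nonneg (sub_nonneg.2 ht1.le)]
        _ < (1 - t) * 1 + t * 1 := by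
          have h3 : 0 < 1 - t := sub_pos.2 ht1
          nlinarith
        _ = 1 := by ring
    have hopen : IsOpen ((fun x => x + t • g x) '' ball (0 : E) 1) := by
      rw [isOpen_iff_mem_nhds]
      rintro _ ⟨x, hx, rfl⟩
      have hx' : ‖x‖ ≤ 1 := (mem_ball_zero_iff.1 hx).le
      have hdet := nr_pos (hsmall x hx')
      have hsurj : (ContinuousLinearMap.id ℝ E + t • fderiv ℝ g x).range = ⊤ := by
        have h2 : IsUnit (LinearMap.det
            ((ContinuousLinearMap.id ℝ E + t • fderiv ℝ g x : E →L[ℝ] E) : E →ₗ[ℝ] E)) :=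
          isUnit_iff_ne_zero.2 hdet.ne'
        have h3 := (LinearMap.isUnit_iff_isUnit_det _).2 h2
        exact (LinearMap.isUnit_iff_range_eq_top _).1 h3
      have h2 := (hder x hx').map_nhds_eq_of_surj hsurj
      show _ ∈ nhds (x + t • g x)
      have h3 : (fun x => x + t • g x) '' ball (0 : E) 1 ∈
          Filter.map (fun x => x + t • g x) (nhds x) :=
        Filter.image_mem_map (isOpen_ball.mem_nhds hx)
      rw [h2] at h3
      exact h3
    have hcts : ContinuousOn (fun x => x + t • g x) (closedBall (0 : E) 1) := fun x hx =>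
      (hder x (mem_closedBall_zero_iff.1 hx)).hasFDerivAt.continuousAt.continuousWithinAt
    have himg : (fun x => x + t • g x) '' ball (0 : E) 1 = ball (0 : E) 1 := by
      refine hsub.antisymm ?_
      refine (convex_ball (0 : E) 1).isPreconnected.subset_of_closure_inter_subset hopen ?_ ?_
      · refine ⟨0 + t • g 0, ?_, ⟨0, mem_ball_self one_pos, rfl⟩⟩
        exact hsub ⟨0, mem_ball_self one_pos, rfl⟩
      · rintro y ⟨hy, hy1⟩
        have h2 : IsClosed ((fun x => x + t • g x) '' closedBall (0 : E) 1) :=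
          (hK.image_of_continuousOn hcts).isClosed
        have h3 : closure ((fun x => x + t • g x) '' ball (0 : E) 1) ⊆
            (fun x => x + t • g x) '' closedBall (0 : E) 1 :=
          closure_minimal (image_mono ball_subset_closedBall) h2
        obtain ⟨x, hx, rfl⟩ := h3 hy
        rw [mem_closedBall_zero_iff] at hx
        rcases hx.lt_or_eq with hlt | heq
        · exact ⟨x, mem_ball_zero_iff.2 hlt, rfl⟩
        · exfalso
          have h4 : x + t • g x = x := by rw [h0 x heq, smul_zero, add_zero]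
          have h5 : ‖x + t • g x‖ < 1 := mem_ball_zero_iff.1 hy1
          rw [h4, heq] at h5
          exact lt_irrefl _ h5
    have hcv := integral_image_eq_integral_abs_det_fderiv_smul μ (measurableSet_ball (x := (0 : E)))
      (f := fun x => x + t • g x) (f' := fun x => ContinuousLinearMap.id ℝ E + t • fderiv ℝ g x)
      (fun x hx => (hder x (mem_ball_zero_iff.1 hx).le).hasFDerivAt.hasFDerivWithinAt)
      (hinj.mono ball_subset_closedBall) (fun _ => (1 : ℝ))
    rw [himg] at hcv
    have h2 : ∫ x in ball (0 : E) 1, (1 : ℝ) ∂μ = μ.real (ball (0 : E) 1) := by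
      rw [setIntegral_const, smul_eq_mul, mul_one]
    rw [h2] at hcv
    rw [hcv]
    refine setIntegral_congr_fun measurableSet_ball fun x hx => ?_
    show _ = |(ContinuousLinearMap.id ℝ E + t • fderiv ℝ g x).det| • (1 : ℝ)
    rw [abs_of_pos (nr_pos (hsmall x (mem_ball_zero_iff.1 hx).le)), smul_eq_mul, mul_one]
  -- interpolation
  set n := Module.finrank ℝ E with hn
  set v : ℕ → ℝ := fun i => (i : ℝ) / ((n + 1 : ℕ) * (L + 2)) with hv
  have hden : 0 < ((n + 1 : ℕ) : ℝ) * (L + 2) := by positivity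
  have hvinj : Set.InjOn v (Finset.range (n + 1)) := by
    intro i _ j _ hij
    have h2 : (i : ℝ) / ((n + 1 : ℕ) * (L + 2)) = (j : ℝ) / ((n + 1 : ℕ) * (L + 2)) := hij
    rw [div_left_inj' hden.ne'] at h2
    exact_mod_cast h2
  have hvr : ∀ i ∈ Finset.range (n + 1), 0 ≤ v i ∧ v i < 1 ∧ v i * L < 1 := by
    intro i hi
    have hi' : (i : ℝ) ≤ ((n + 1 : ℕ) : ℝ) := by
      exact_mod_cast (Finset.mem_range.1 hi).le
    have hvi : v i ≤ 1 / (L + 2) := by
      rw [hv]
      show (i : ℝ) / ((n + 1 : ℕ) * (L + 2)) ≤ 1 / (L + 2)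
      rw [div_le_div_iff₀ hden (by positivity)]
      nlinarith
    have h2 : 0 ≤ v i := by rw [hv]; positivity
    have h3 : 1 / (L + 2) < 1 := by
      rw [div_lt_one (by positivity)]
      linarith
    refine ⟨h2, hvi.trans_lt h3, ?_⟩
    calc v i * L ≤ 1 / (L + 2) * L := mul_le_mul_of_nonneg_right hvi hL0
      _ = L / (L + 2) := by ring
      _ < 1 := by
        rw [div_lt_one (by positivity)]
        linarith
  have hpt : ∀ x : E, (ContinuousLinearMap.id ℝ E + (1 : ℝ) • fderiv ℝ g x).det =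
      ∑ i ∈ Finset.range (n + 1), (Lagrange.basis (Finset.range (n + 1)) v i).eval 1 *
        (ContinuousLinearMap.id ℝ E + v i • fderiv ℝ g x).det := by
    intro x
    obtain ⟨P, hP, hPe⟩ := nr_poly (fderiv ℝ g x)
    have hdeg : P.degree < ((Finset.range (n + 1)).card : WithBot ℕ) := by
      rw [Finset.card_range]
      refine lt_of_le_of_lt degree_le_natDegree ?_
      exact_mod_cast Nat.lt_succ_of_le hP
    have h2 := Lagrange.eq_interpolate hvinj hdeg
    rw [hPe 1]
    conv_lhs => rw [h2]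
    rw [Lagrange.interpolate_apply, eval_finsetSum]
    refine Finset.sum_congr rfl fun i _ => ?_
    rw [eval_mul, eval_C, hPe (v i), mul_comm]
  have hint : ∀ t : ℝ, IntegrableOn
      (fun x => (ContinuousLinearMap.id ℝ E + t • fderiv ℝ g x).det) (ball (0 : E) 1) μ := by
    intro t
    have h2 : ContinuousOn (fun x => (ContinuousLinearMap.id ℝ E + t • fderiv ℝ g x).det)
        (closedBall (0 : E) 1) :=
      ContinuousLinearMap.continuous_det.comp_continuousOn
        (continuousOn_const.add (hcont.const_smul t))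
    exact (h2.integrableOn_compact hK).mono_set ball_subset_closedBall
  have hone : ∫ x in ball (0 : E) 1, (ContinuousLinearMap.id ℝ E + (1 : ℝ) • fderiv ℝ g x).det ∂μ =
      μ.real (ball (0 : E) 1) := by
    rw [setIntegral_congr_fun measurableSet_ball fun x _ => hpt x,
      integral_finsetSum _ fun i _ => (hint (v i)).const_mul _]
    have h2 : ∀ i ∈ Finset.range (n + 1),
        ∫ x in ball (0 : E) 1, (Lagrange.basis (Finset.range (n + 1)) v i).eval 1 *
          (ContinuousLinearMap.id ℝ E + v i • fderiv ℝ g x).det ∂μ =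
        (Lagrange.basis (Finset.range (n + 1)) v i).eval 1 * μ.real (ball (0 : E) 1) := by
      intro i hi
      obtain ⟨h3, h4, h5⟩ := hvr i hi
      rw [integral_const_mul, hF (v i) h3 h4 h5]
    rw [Finset.sum_congr rfl h2, ← Finset.sum_mul, ← eval_finsetSum,
      Lagrange.sum_basis hvinj ⟨0, Finset.mem_range.2 (Nat.succ_pos n)⟩, eval_one, one_mul]
  -- but the determinant vanishes for `t = 1`
  have hzero : ∀ x ∈ ball (0 : E) 1,
      (ContinuousLinearMap.id ℝ E + (1 : ℝ) • fderiv ℝ g x).det = 0 := by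
    intro x hx
    have hx' : ‖x‖ ≤ 1 := (mem_ball_zero_iff.1 hx).le
    by_contra hne
    have hder : HasFDerivAt (fun x => x + (1 : ℝ) • g x)
        (ContinuousLinearMap.id ℝ E + (1 : ℝ) • fderiv ℝ g x) x :=
      (hasFDerivAt_id x).add ((hstrict x hx').hasFDerivAt.const_smul (1 : ℝ))
    have hconst : (fun x => inner ℝ (x + (1 : ℝ) • g x) (x + (1 : ℝ) • g x)) =ᶠ[nhds x]
        fun _ => (1 : ℝ) := by
      filter_upwards [isOpen_ball.mem_nhds hx] with y hy
      rw [one_smul, real_inner_self_eq_norm_sq, h1 y (mem_ball_zero_iff.1 hy).le, one_pow]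
    have hd1 := hder.inner ℝ hder
    have hd2 : HasFDerivAt (fun x => inner ℝ (x + (1 : ℝ) • g x) (x + (1 : ℝ) • g x))
        (0 : E →L[ℝ] ℝ) x := (hasFDerivAt_const (1 : ℝ) x).congr_of_eventuallyEq hconst
    have hd3 := hd1.unique hd2
    have hbij : Function.Surjective
        (ContinuousLinearMap.id ℝ E + (1 : ℝ) • fderiv ℝ g x : E →L[ℝ] E) := by
      have h2 : IsUnit (LinearMap.det
          ((ContinuousLinearMap.id ℝ E + (1 : ℝ) • fderiv ℝ g x : E →L[ℝ] E) : E →ₗ[ℝ] E)) :=
        isUnit_iff_ne_zero.2 hne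
      have h3 := (LinearMap.isUnit_iff_isUnit_det _).2 h2
      exact LinearMap.range_eq_top.1 ((LinearMap.isUnit_iff_range_eq_top _).1 h3)
    obtain ⟨w, hw⟩ := hbij (x + (1 : ℝ) • g x)
    have h4 := congrArg (fun T : E →L[ℝ] ℝ => T w) hd3
    have h5 : inner ℝ (x + (1 : ℝ) • g x) (x + (1 : ℝ) • g x) +
        inner ℝ (x + (1 : ℝ) • g x) (x + (1 : ℝ) • g x) = (0 : ℝ) := by
      have h6 : inner ℝ (x + (1 : ℝ) • g x)
          ((ContinuousLinearMap.id ℝ E + (1 : ℝ) • fderiv ℝ g x : E →L[ℝ] E) w) +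
          inner ℝ ((ContinuousLinearMap.id ℝ E + (1 : ℝ) • fderiv ℝ g x : E →L[ℝ] E) w)
            (x + (1 : ℝ) • g x) = (0 : ℝ) := by
        simpa [fderivInnerCLM_apply] using h4
      rwa [hw] at h6
    rw [one_smul, real_inner_self_eq_norm_sq, h1 x hx'] at h5
    norm_num at h5
  rw [setIntegral_congr_fun measurableSet_ball hzero] at hone
  rw [integral_zero] at hone
  have hpos : 0 < μ.real (ball (0 : E) 1) := by
    rw [measureReal_def]
    exact ENNReal.toReal_pos (measure_ball_pos μ 0 one_pos).ne' measure_ball_lt_top.ne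
  exact absurd hone hpos.ne

end Brouwer
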